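import Pool.Agent.Q253.NF.T1
import Pool.Agent.Q96.NF.PF
import Pool.Agent.Q96.NF.EF
import Pool.Agent.Q184.NF.LA
import Pool.Agent.Q153.NF.MS
import Pool.Agent.Q24.NF.VF
import Pool.Agent.Q177.NF.MSQ
import Pool.Agent.Q208.NF.Ent
import Pool.Agent.Q31.NF.RAYD
import Pool.Agent.Q151.NF.Ded
import Pool.Agent.Q151.NF.Ordl

set_option autoImplicit false

/-!
# Prime ideals decide the holomorphy of `ζ_L/ζ_K`

`L/K` is any extension of number fields.  For `x = e^u` let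
`P(u) = P_L(u) - P_K(u)`, `P_F(u) = ∑_𝔞 Λ_F(𝔞) N𝔞^(-1/2) min (N𝔞/x, x/N𝔞)`, the sum over the powers of the prime ideals of `F`.  Let
`n(s)` be the order of `ζ_L/ζ_K` at `s`, negative for poles, and `V = V_L - V_K`,
`V_F = 2 Re ((ξ_F'/ξ_F)(3/2) - (ξ_F'/ξ_F)'(3/2))`, `ξ_F` the completed zeta function times `s (s-1)`.  Nothing is assumed.

1. `ζ_L/ζ_K` has no zeros and no poles with `Re s > 1/2` if and only if the mean square of `P` is bounded.
2. In this case the mean square tends to `V + ∑_γ n(n-1) (2/(1+γ²))²`, `n = n(1/2+iγ)`, the mean of `-P(u) cos (tu)` tends to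
   `n(1/2+it) 2/(1+t²)`, and `ζ_L/ζ_K` is entire if and only if these means are all `≥ 0`.
3. `ζ_L/ζ_K` is entire without zeros with `Re s > 1/2` iff the mean square of `P` is bounded and the means of `-P(u) cos (tu)` have
   lower limits `≥ 0` for all real `t`.
4. `ζ_L/ζ_K` is entire, without zeros with `Re s > 1/2`, and all its zeros on the line are simple, if and only if the upper limit of the mean
   square of `P` is at most `V`; if and only if the mean square tends to `V`.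
5. If the upper limit is at most `V + δ` then there are no zeros and no poles with `Re s > 1/2` and `n(n-1) (2/(1+t²))² ≤ δ` for all `t`: no
   poles and no multiple zeros at the points `1/2 + it` with `(1+t²)² < 8/δ`.
-/

namespace Pool.Agent.Results.MP_9fc8a5_nt.PrimeIdealsDecide

open MeasureTheory Filter Topology Set Complex NumberField IsDedekindDomain

/-- `f` is a meromorphic continuation of `g` from `Re s > 1` to `ℂ` -/
def Continues (f g : ℂ → ℂ) : Prop := MeromorphicOn f univ ∧ ∀ s : ℂ, 1 < s.re → f s = g s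

section
variable (F : Type) [Field F] [NumberField F]

open Classical in
/-- the order at `s` of the meromorphic continuation of the Dedekind zeta function of `F` -/
noncomputable def ordZeta (s : ℂ) : ℤ :=
  if h : ∃ f, Continues f (dedekindZeta F) then (meromorphicOrderAt h.choose s).untop₀ else 0

/-- `P_F(u)`, the sum over the powers `v^(k+1)` of the prime ideals of `F` (`x.1 = v`, `x.2 = k`, `q = N v`) of
`log q · q^(-(k+1)/2) · exp (-|u - (k+1) log q|)` -/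
noncomputable def primeSum (u : ℝ) : ℝ :=
  ∑' x : HeightOneSpectrum (𝓞 F) × ℕ, Real.log (Ideal.absNorm x.1.asIdeal) *
    Real.exp (-(((x.2 : ℝ) + 1) * Real.log (Ideal.absNorm x.1.asIdeal) / 2)) *
    Real.exp (-|u - ((x.2 : ℝ) + 1) * Real.log (Ideal.absNorm x.1.asIdeal)|)

/-- `ξ_F(s) = s (s-1) |d_F|^(s/2) Γ_ℝ(s)^r₁ Γ_ℂ(s)^r₂ ζ_F(s)`, for `Re s > 1` -/
noncomputable def xi (s : ℂ) : ℂ :=
  s * (s - 1) * ((|(discr F : ℝ)| : ℝ) : ℂ) ^ (s / 2) * Gammaℝ s ^ InfinitePlace.nrRealPlaces F *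
    Gammaℂ s ^ InfinitePlace.nrComplexPlaces F * dedekindZeta F s

/-- `V_F` -/
noncomputable def VF : ℝ := 2 * (logDeriv (xi F) (3 / 2) - deriv (logDeriv (xi F)) (3 / 2)).re

end

section
variable (K L : Type) [Field K] [NumberField K] [Field L] [NumberField L]

/-- the order of `ζ_L/ζ_K` at `s` -/
noncomputable def n (s : ℂ) : ℤ := ordZeta L s - ordZeta K s

/-- `P(u)` -/
noncomputable def P (u : ℝ) : ℝ := primeSum L u - primeSum K u

/-- the mean square of `P` -/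
noncomputable def meanSquare (U : ℝ) : ℝ := (1 / U) * ∫ u in (0 : ℝ)..U, P K L u ^ 2

/-- the mean of `-P(u) cos (tu)` -/
noncomputable def cosMean (t U : ℝ) : ℝ := (1 / U) * ∫ u in (0 : ℝ)..U, -P K L u * Real.cos (t * u)

/-- `V` -/
noncomputable def V : ℝ := VF L - VF K

/-- the term of the excess at `1/2 + iγ` -/
noncomputable def excess (γ : ℝ) : ℝ :=
  (n K L (1 / 2 + γ * I) : ℝ) * ((n K L (1 / 2 + γ * I) : ℝ) - 1) * (2 / (1 + γ ^ 2)) ^ 2

/-- `ζ_L/ζ_K` has no zeros and no poles with `Re s > 1/2` -/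
def Riemann : Prop := ∀ s : ℂ, 1 / 2 < s.re → n K L s = 0

/-- `ζ_L/ζ_K` is entire -/
def Entire : Prop :=
  ∃ g : ℂ → ℂ, Differentiable ℂ g ∧ ∀ s : ℂ, 1 < s.re → g s = dedekindZeta L s / dedekindZeta K s

/-- the zeros of `ζ_L/ζ_K` on the critical line are simple -/
def Simple : Prop := ∀ t : ℝ, n K L (1 / 2 + t * I) ≤ 1

/-- the mean square has upper limit at most `c` -/
def Upper (c : ℝ) : Prop := ∀ ε : ℝ, 0 < ε → ∀ᶠ U : ℝ in atTop, meanSquare K L U ≤ c + ε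

end

/-- **One inequality for prime ideals is equivalent to the holomorphy of `ζ_L/ζ_K` with the Riemann hypothesis and simple zeros.** -/
theorem result (K L : Type) [Field K] [NumberField K] [Field L] [NumberField L] [Algebra K L] :
    ((∃ f, Continues f (dedekindZeta K)) ∧ ∃ f, Continues f (dedekindZeta L)) ∧
    (Riemann K L ↔ ∃ C : ℝ, ∀ᶠ U : ℝ in atTop, meanSquare K L U ≤ C) ∧
    (Riemann K L → Summable (excess K L) ∧
      Tendsto (meanSquare K L) atTop (𝓝 (V K L + ∑' γ : ℝ, excess K L γ)) ∧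
      (∀ t : ℝ, Tendsto (cosMean K L t) atTop (𝓝 ((n K L (1 / 2 + t * I) : ℝ) * (2 / (1 + t ^ 2))))) ∧
      (Entire K L ↔ ∀ t : ℝ, 0 ≤ n K L (1 / 2 + t * I))) ∧
    ((Entire K L ∧ Riemann K L) ↔ ((∃ C : ℝ, ∀ᶠ U : ℝ in atTop, meanSquare K L U ≤ C) ∧
      ∀ t ε : ℝ, 0 < ε → ∀ᶠ U : ℝ in atTop, -ε ≤ cosMean K L t U)) ∧
    ((Entire K L ∧ Riemann K L ∧ Simple K L) ↔ Upper K L (V K L)) ∧
    ((Entire K L ∧ Riemann K L ∧ Simple K L) ↔ Tendsto (meanSquare K L) atTop (𝓝 (V K L))) ∧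
    ∀ δ : ℝ, Upper K L (V K L + δ) → Riemann K L ∧ ∀ t : ℝ, excess K L t ≤ δ := by
  obtain ⟨DK, hK⟩ := Pool.Agent.Q151.NF.t_DED Pool.Agent.Q151.NF.t_LTG Pool.Agent.Q31.NF.rayd Pool.Agent.Q151.NF.t_ORDL K
  obtain ⟨DL, hL⟩ := Pool.Agent.Q151.NF.t_DED Pool.Agent.Q151.NF.t_LTG Pool.Agent.Q31.NF.rayd Pool.Agent.Q151.NF.t_ORDL L
  have hK' : Pool.Agent.Q253.NF.IsDed K DK := ⟨hK.1, hK.2.1, hK.2.2.1, hK.2.2.2.1, hK.2.2.2.2.1, hK.2.2.2.2.2.1, hK.2.2.2.2.2.2⟩
  have hL' : Pool.Agent.Q253.NF.IsDed L DL := ⟨hL.1, hL.2.1, hL.2.2.1, hL.2.2.2.1, hL.2.2.2.2.1, hL.2.2.2.2.2.1, hL.2.2.2.2.2.2⟩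
  exact ⟨⟨hK'.cont, hL'.cont⟩, Pool.Agent.Q253.NF.T1.main Pool.Agent.Q96.NF.pf Pool.Agent.Q96.NF.ef
    Pool.Agent.Q184.NF.la' Pool.Agent.Q153.NF.ms (Pool.Agent.Q24.NF.vf Pool.Agent.Q96.NF.pf) Pool.Agent.Q177.NF.msq
    Pool.Agent.Q208.NF.t_ENT hK' hL'⟩

end Pool.Agent.Results.MP_9fc8a5_nt.PrimeIdealsDecide
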