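import Mathlib
import Pool.Agent.Q7.DB.Main
import Pool.Agent.Q7.DB.Jor
import Pool.Agent.Q7.RA.Fld

/-!
# Quotients of Dedekind zeta functions at a zero of order `r`: reduction to bounded complexity

`M/K` is a Galois extension of number fields with group `M ≃ₐ[K] M`. `Irr G` is the set of irreducible
complex characters of the finite group `G`.

`zetaOrder F s₀` is the order at `s₀` of the Dedekind zeta function of the number field `F`, and
`artinOrder χ s₀` the order at `s₀` of the Artin L-function `L(s, χ)` of the character `χ` of the Galois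
group of `M/K`: the Euler product for `Re s > 1` over the primes of `K` which are unramified in `M`
(`Pool.Agent.Q92.AR.artinL`), continued meromorphically to `ℂ`; the finitely many other Euler factors
have no zeros and poles for `Re s > 0`.

Nothing is assumed: the continuations exist by Artin's reciprocity law, Hecke's theorem and Brauer's
induction theorem, which are proved in the library `Pool.Agent.Q92.AR`.
-/

set_option autoImplicit false

open Pool.Agent.H541R3.ART Pool.Agent.W446.AS Pool.Agent.Q7.DB Pool.Agent.Q7.RA Pool.Agent.Q92.AR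

/-- Let `M/K` be a Galois extension of number fields and `R` an extension of `K` in `M` which is normal
over `K` and such that `M/R` is solvable (for example `R = K` if `M/K` is solvable). Let `Re s₀ > 0`,
`s₀ ≠ 1`, let `r` be the order of the Dedekind zeta function of `M` at `s₀`, and
`D = [R : K] (r ^ (1 + ⌊2 log₂ r⌋)) ^ 2`. There is a Galois extension `L` of `K` in `M`, abelian over a
field `B` with `[B : K] ≤ 5 ^ (2 D r ^ 2)`, such that
(1) `L(s, χ)` is holomorphic and nonzero at `s₀` for all irreducible characters `χ` of the Galois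
group of `M/K` which do not come from `L/K`;
(2) for every field `F` between `K` and `M` the zeta functions of `F` and of `F ∩ L` have the same
order at `s₀`; in particular the zeta function of `L` has order `r` at `s₀`;
(3) hence, for fields `F ≤ F'` between `K` and `M`, the quotient `ζ_F' / ζ_F` is holomorphic at `s₀` if
and only if the quotient of the zeta functions of `F' ∩ L` and `F ∩ L` is. -/
theorem Pool.Agent.Results.MP_9fc8a5_nt.ReductionToBoundedFields.result
    (K M : Type) [Field K] [NumberField K] [Field M] [NumberField M] [Algebra K M] [IsGalois K M]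
    (R : IntermediateField K M) [IsGalois K R] (hR : Group.IsSolvable R.fixingSubgroup)
    (s₀ : ℂ) (h0 : 0 < s₀.re) (h1 : s₀ ≠ 1) (r : ℕ) (hr : zetaOrder M s₀ = (r : WithTop ℤ)) :
    ∃ L B : IntermediateField K M, IsGalois K L ∧ B ≤ L ∧
      (∀ σ ∈ B.fixingSubgroup, ∀ τ ∈ B.fixingSubgroup, σ * τ * σ⁻¹ * τ⁻¹ ∈ L.fixingSubgroup) ∧
      Module.finrank K B ≤
        5 ^ (2 * (Module.finrank K R * (r ^ (1 + Nat.log 2 (r ^ 2))) ^ 2) * r ^ 2) ∧
      (∀ χ ∈ Irr (M ≃ₐ[K] M), (∃ σ ∈ L.fixingSubgroup, χ σ ≠ χ 1) → artinOrder χ s₀ = 0) ∧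
      (∀ F : IntermediateField K M,
        zetaOrder (F ⊓ L : IntermediateField K M) s₀ = zetaOrder F s₀) ∧
      zetaOrder L s₀ = (r : WithTop ℤ) ∧
      (∀ F F' : IntermediateField K M, F ≤ F' →
        (zetaOrder F s₀ ≤ zetaOrder F' s₀ ↔
          zetaOrder (F ⊓ L : IntermediateField K M) s₀ ≤
            zetaOrder (F' ⊓ L : IntermediateField K M) s₀)) := by
  classical
  have hRn : R.fixingSubgroup.Normal := inferInstance
  set A := data K M h0 h1 with hA
  have hr' : meromorphicOrderAt (A.Lin ⊥ 1) s₀ = (r : WithTop ℤ) := (data_bot h0 h1).trans hr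
  have : Fintype (M ≃ₐ[K] M) := Fintype.ofFinite _
  have hD : ∀ χ ∈ Irr (M ≃ₐ[K] M), A.ord χ ≠ 0 →
      ∃ d : ℕ, χ 1 = d ∧ d ^ 2 ≤ R.fixingSubgroup.index * (r ^ (1 + Nat.log 2 (r ^ 2))) ^ 2 := by
    intro χ hχ hne
    obtain ⟨d, -, hd⟩ := irr_deg_pos hχ
    refine ⟨d, hd, ?_⟩
    refine deg_main _ _ rfl R.fixingSubgroup hRn hR (theta A.ord) A.isHeilbronn (theta_virt _) r
      (A.theta_one hr') χ hχ ?_ d hd
    intro h0
    apply hne
    have h1 := A.order_eq hχ (k := 0) (by rw [sum_eq_pr, h0]; simp)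
    rw [← A.coe_ord hχ] at h1
    exact_mod_cast h1
  obtain ⟨N, B, hN, h2, h3, h4, h5⟩ := struct A.ord A.isHeilbronn (A.theta_one hr') hD
  have h6 : ∀ χ ∈ Irr (M ≃ₐ[K] M), (∃ x ∈ N, χ x ≠ χ 1) →
      meromorphicOrderAt (A.L χ) s₀ = 0 := by
    rintro χ hχ ⟨x, hx, hne⟩
    rw [← A.coe_ord hχ]
    by_contra hcon
    have h7 : A.ord χ ≠ 0 := fun h => hcon (by rw [h]; rfl)
    obtain ⟨d, ρ, hρ, h8⟩ := h5 χ hχ h7
    apply hne
    rw [hρ]
    change LinearMap.trace ℂ _ (ρ x) = LinearMap.trace ℂ _ (ρ 1)
    rw [mem_kr.mp (h8 hx), show ρ 1 = 1 from map_one ρ]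
  have h7 := order_sup A h5
  obtain ⟨L, rfl⟩ := exists_fixing N
  obtain ⟨B, rfl⟩ := exists_fixing B
  have hL : IsGalois K L := by
    have h8 : IsGalois K (IntermediateField.fixedField L.fixingSubgroup) := inferInstance
    rwa [IsGalois.fixedField_fixingSubgroup] at h8
  have key : ∀ F : IntermediateField K M,
      zetaOrder (F ⊓ L : IntermediateField K M) s₀ = zetaOrder F s₀ := by
    intro F
    rw [← data_field h0 h1, ← data_field h0 h1, fixingSubgroup_inf]
    exact h7 F.fixingSubgroup
  refine ⟨L, B, hL, fixing_le_iff.1 h2, h3, ?_, h6, key, ?_, ?_⟩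
  · rw [finrank_eq_index, finrank_eq_index]
    exact h4
  · have h8 := h7 ⊥
    rw [bot_sup_eq, hr'] at h8
    rw [← data_field h0 h1]
    exact h8
  · intro F F' _
    rw [key F, key F']
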