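import Pool.Agent.Q92.DD.Orth

/-!
# Quotients of Dedekind zeta functions: the solvable radical of the Galois closure, and groups with
a quotient `SL_2(q)`, `q` even

Number fields, their Dedekind zeta functions (Mathlib), no hypotheses.

* (1) `M/K` Galois, `N` a solvable normal subgroup of its group, `L` between `K` and `M`: the quotient
  `ζ_L/ζ_(L ∩ M^N)` is entire.
* (2) Let `Gal(M/K)` have a homomorphism onto `SL_2(F)` with solvable kernel, `F` a finite field of
  characteristic two with `q` elements, and let `L` be a field between whose group acts on `F²` through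
  elements which preserve an anisotropic quadratic form.  Then `ζ_L/ζ_K` is entire.  If the group of `L`
  consists of all such elements, `[L : K] = q (q - 1) / 2`.
* (3) The quotient `ζ_(M^H)/ζ_(M^U)` is entire for the pairs of subgroups `H ≤ U` obtained by finitely
  many steps of three kinds.
* (4) Dedekind's conjecture for all extensions follows from the case of the extensions `L/K` which are
  not Galois, have no proper intermediate fields and whose Galois closure has a group `G` with trivial
  solvable radical such that no positive multiple of `1_H^G - 1` is a sum of characters induced from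
  linear characters (`H` the group of the Galois closure over `L`).
-/

set_option autoImplicit false

namespace Pool.Agent.Results.MP_9fc8a5_nt.SolvableRadical

open Pool.Agent.Q92.DD (Entire Tame Hard)
open Pool.Agent.Q92.DD.SL (Preserves)

/-- (1) the relative solvable radical -/
def RelativeRadical : Prop :=
  ∀ (K M : Type) [Field K] [NumberField K] [Field M] [NumberField M] [Algebra K M]
    [IsGalois K M] (N : Subgroup (M ≃ₐ[K] M)) [N.Normal] [Group.IsSolvable N]
    (L : IntermediateField K M),
      Entire (L ⊓ IntermediateField.fixedField N : IntermediateField K M) L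

/-- (2) groups with the quotient `SL_2(F)` -/
def OrthogonalFamily : Prop :=
  ∀ (F : Type) [Field F] [Fintype F] [CharP F 2] (c : F), (∀ x : F, x ^ 2 + x ≠ c) →
    ∀ (K M : Type) [Field K] [NumberField K] [Field M] [NumberField M] [Algebra K M]
      [IsGalois K M] (e : (M ≃ₐ[K] M) →* Matrix.SpecialLinearGroup (Fin 2) F),
      Function.Surjective e → Group.IsSolvable e.ker →
        (∀ L : IntermediateField K M, (∀ σ ∈ L.fixingSubgroup, Preserves c (e σ)) →
          Entire K L) ∧
        ∀ L : IntermediateField K M, (∀ σ, σ ∈ L.fixingSubgroup ↔ Preserves c (e σ)) →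
          2 * Module.finrank K L = Fintype.card F * (Fintype.card F - 1)

/-- (3) chains of steps -/
def Steps : Prop :=
  ∀ (K M : Type) [Field K] [NumberField K] [Field M] [NumberField M] [Algebra K M]
    [IsGalois K M] (H U : Subgroup (M ≃ₐ[K] M)), Tame H U →
      Entire (IntermediateField.fixedField U) (IntermediateField.fixedField H)

/-- (4) the reduction -/
def Reduction : Prop :=
  (∀ (K L : Type) [Field K] [NumberField K] [Field L] [NumberField L] [Algebra K L],
    Hard K L → Entire K L) →
    ∀ (K L : Type) [Field K] [NumberField K] [Field L] [NumberField L] [Algebra K L],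
      Entire K L

theorem result : RelativeRadical ∧ OrthogonalFamily ∧ Steps ∧ Reduction :=
  ⟨fun _ _ _ _ _ _ _ _ N _ _ L => Pool.Agent.Q92.DD.entire_radical L N,
    fun _ _ _ _ _ hc _ _ _ _ _ _ _ _ e he hk =>
      ⟨fun L hL => Pool.Agent.Q92.DD.SL.fields_OO hc e he hk L hL,
        fun L hL => Pool.Agent.Q92.DD.SL.degree_OO hc e he L hL⟩,
    fun _ _ _ _ _ _ _ _ _ _ h => Pool.Agent.Q92.DD.entire_fixed h.le h.dom,
    Pool.Agent.Q92.DD.reduction⟩

end Pool.Agent.Results.MP_9fc8a5_nt.SolvableRadical
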