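import Mathlib
import Pool.Agent.Q92.AR.All
import Pool.Agent.Q92.AR.Use
import Pool.Agent.Q92.AR.EvenL
import Pool.Agent.Q290.AR.OTCore
import Pool.Agent.Q290.AR.OTDefs
import Pool.Agent.Q290.AR.Int
import Pool.Agent.Q290.AR.Ent

/-!
# Quotients of Dedekind zeta functions at zeros of order at most two

`M/K` is a Galois extension of number fields with Galois group `M ≃ₐ[K] M`.

`ordZeta F s₀` is the order at `s₀` of the Dedekind zeta function of `F`.
`ordL K M s₀ χ` is the order at `s₀` of the Artin L-function of the class function `χ` of the Galois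
group (the Euler factors at the primes which ramify in `M` are left out, they have no zero or pole
for `Re s > 0`), and `ordH K M s₀ H ψ` is that of the L-function of the linear character `ψ` of the
subgroup `H`, that is of the Hecke character `ψ` of the fixed field of `H`.
If `U ≤ H`, the restriction of `ψ` to `U` belongs to the pull-back of this Hecke character by the
norm. The four properties in (II) are defined in `Pool.Agent.Q290.AR.OTDefs`, in this order.
-/

set_option autoImplicit false

open Pool.Agent.H541R3.ART Pool.Agent.Q92.AR Pool.Agent.Q290.AR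

/-- (I) Let `L/K` be an extension of number fields and `M ⊇ L` a Galois extension of `K`, for example
the Galois closure, with any Galois group. Suppose that the zeros of `ζ_K` with `Re s ≥ 1/2` are
zeros of `ζ_M` of order at most two. Then `ζ_L / ζ_K` is an entire function.

(II) Let `M/K` be a Galois extension of number fields with any Galois group, `s₀ ≠ 1`, `Re s₀ > 0`,
and suppose that the order `r` of `ζ_M` at `s₀` is at most two.
(1) For all fields `F ⊆ F'` between `K` and `M` the order of `ζ_F` at `s₀` is at most that of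
`ζ_F'`; more generally this holds for the L-functions of a Hecke character `ρ` of `F` which splits
over `M` and of its pull-back to `F'`.
(2) If such an L-function `L(s, ρ)` vanishes at `s₀`, `ρ` a character of the subgroup `H`, then all
abelian L-functions of the fields between `M ^ H` and `M` which vanish at `s₀` are pull-backs:
`r = 1` and `L(s, ψ)` vanishes, simply, exactly for the restriction `ψ` of `ρ`; or `r = 2` and there
is a second linear character `ρ'` of `H` such that the order of `L(s, ψ)` at `s₀` is the number of
members of the list `ρ, ρ'` which restrict to `ψ`.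
(3) If `L(s, ρ)` vanishes at `s₀` for a linear character `ρ` of the Galois group, for example if
`ζ_K` vanishes at `s₀`, then the conjecture of Artin holds at `s₀` for `M/K`, and `L(s, χ)` is finite
and nonzero at `s₀` for all irreducible characters `χ` of degree greater than one. -/
theorem Pool.Agent.Results.MP_9fc8a5_nt.ZerosOfOrderTwo.result :
    (∀ (K L M : Type) [Field K] [NumberField K] [Field L] [NumberField L] [Field M] [NumberField M]
      [Algebra K L] [Algebra K M] [Algebra L M] [IsScalarTower K L M] [IsGalois K M],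
      (∀ s₀ : ℂ, 1 / 2 ≤ s₀.re → s₀ ≠ 1 → 0 < ordZeta K s₀ → ordZeta M s₀ ≤ 2) →
      ∃ q : ℂ → ℂ, Differentiable ℂ q ∧ ∀ s : ℂ, 1 < s.re →
        q s = NumberField.dedekindZeta L s / NumberField.dedekindZeta K s) ∧
    (∀ (K M : Type) [Field K] [NumberField K] [Field M] [NumberField M] [Algebra K M]
      [IsGalois K M] (s₀ : ℂ), 0 < s₀.re → s₀ ≠ 1 → ∀ r : ℕ, r ≤ 2 →
      ordZeta M s₀ = (r : WithTop ℤ) →
      ZetaMonotone K M s₀ ∧ HeckeMonotone K M s₀ ∧ ZerosArePullbacks K M s₀ r ∧
        ArtinAtLinearZeros K M s₀) := by
  refine ⟨?_, ?_⟩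
  · intro K L M _ _ _ _ _ _ _ _ _ _ _ h
    have hL : ∃ g : ℂ → ℂ, Continues g (NumberField.dedekindZeta L) :=
      exists_zeta (K := K) (M := M) (continued (K := K) (M := M) (s₀ := 2) (by norm_num)
        (by norm_num))
    have hK : ∃ g : ℂ → ℂ, Continues g (NumberField.dedekindZeta K) :=
      exists_zeta (K := K) (M := M) (continued (K := K) (M := M) (s₀ := 2) (by norm_num)
        (by norm_num))
    refine Pool.Agent.Q290.AR.quotient_entire (cont_spec hK) (cont_spec hL) fun s₀ hs h1 => ?_
    have h0 : 0 < s₀.re := by linarith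
    have hC : Continued (K := K) M s₀ := continued h0 h1
    obtain ⟨r, hr⟩ := Pool.Agent.Q290.AR.exists_order (ArtinData.ofExtension hC) ⊥ 1
    have e1 := lin_fixer (F := K) hC h0
    have e2 := lin_fixer (F := L) hC h0
    rw [fixer_base] at e1
    by_cases hpos : 0 < meromorphicOrderAt (cont (NumberField.dedekindZeta K)) s₀
    · have hM := h s₀ hs h1 hpos
      unfold ordZeta at hM
      rw [← lin_bot hC h0, hr] at hM
      have hr2 : r ≤ 2 := by exact_mod_cast hM
      obtain ⟨ha, -, -⟩ := Pool.Agent.Q290.AR.ot_core (M ≃ₐ[K] M) s₀ (ArtinData.ofExtension hC)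
        r hr2 hr
      have h3 := ha (fixer K L M) ⊤ le_top 1
      rw [← e1, ← e2]
      exact h3
    · have h3 : meromorphicOrderAt (cont (NumberField.dedekindZeta K)) s₀ ≤ 0 := not_lt.1 hpos
      refine h3.trans ?_
      rw [← e2]
      exact (ArtinData.ofExtension hC).hecke _ _
  · intro K M _ _ _ _ _ _ s₀ h0 h1 r hr2 hr
    have hC : Continued (K := K) M s₀ := continued h0 h1
    obtain ⟨ha, hb, hc⟩ := Pool.Agent.Q290.AR.ot_core (M ≃ₐ[K] M) s₀ (ArtinData.ofExtension hC)
      r hr2 ((lin_bot hC h0).trans hr)
    refine ⟨fun F F' hFF => ?_, ha, fun H ρ hne => ?_, hc⟩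
    · unfold ordZeta
      rw [← Pool.Agent.Q290.AR.lin_inter hC h0 F, ← Pool.Agent.Q290.AR.lin_inter hC h0 F']
      exact ha F'.fixingSubgroup F.fixingSubgroup
        (IntermediateField.fixingSubgroup_antitone hFF) 1
    · rcases hb H ρ hne with ⟨h2, h3⟩ | ⟨h2, ρ', h3⟩
      · refine Or.inl ⟨h2, fun U hUH ψ => ?_⟩
        exact h3 U hUH ψ
      · refine Or.inr ⟨h2, ρ', fun U hUH ψ => ?_⟩
        exact h3 U hUH ψ
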